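import Mathlib
import Pool.Agent.H.MP_9e0a8c_lc.C

namespace Pool.Agent.Results.MP_9e0a8c_lc.Yes
open Finset Pool.Agent.H.MP_9e0a8c_lc

/-- the metric of the circle `G = [-1/2, 1/2]` with endpoints identified -/
noncomputable def d (u v : ℝ) : ℝ := min |u - v| (1 - |u - v|)

/-- social cost of the point `v` -/
noncomputable def sc {N : Type} [Fintype N] (b : N → ℝ) (v : ℝ) : ℝ := ∑ i, d (b i) v

/-- optimal social cost -/
noncomputable def opt {N : Type} [Fintype N] (b : N → ℝ) : ℝ :=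
  sInf (sc b '' Set.Icc (-1/2) (1/2))

/-- social cost of random dictator: each agent's report with probability `1/n` -/
noncomputable def scRD {N : Type} [Fintype N] (b : N → ℝ) : ℝ :=
  ∑ j, (1 / (Fintype.card N : ℝ)) * sc b (b j)

/-- length of the clockwise arc from `u` to `v` -/
noncomputable def arc (u v : ℝ) : ℝ := Int.fract (v - u)

/-- length of the arc opposing the `j`-th agent (indices mod `2k+1`) -/
noncomputable def opp {N : Type} {k : ℕ} (b : N → ℝ) (a : ZMod (2 * k + 1) ≃ N)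
    (j : ZMod (2 * k + 1)) : ℝ := arc (b (a (j + k))) (b (a (j - k)))

/-- social cost of PCD -/
noncomputable def scPCD {N : Type} [Fintype N] {k : ℕ} (b : N → ℝ) (a : ZMod (2 * k + 1) ≃ N) :
    ℝ := ∑ j, (opp b a j / ∑ l, opp b a l) * sc b (b (a j))

lemma sum_zmod (n : ℕ) (g : ZMod (n + 1) → ℝ) :
    ∑ j, g j = ∑ i ∈ range (n + 1), g (i : ZMod (n + 1)) := by
  rw [← Fin.sum_univ_eq_sum_range (fun i => g (i : ZMod (n + 1))) (n + 1)]
  exact sum_congr rfl fun j _ => by
    congr 1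
    exact (ZMod.natCast_zmod_val (n := n + 1) j).symm

theorem result (k : ℕ) (N : Type) [Fintype N] (b : N → ℝ)
    (hb : ∀ i, b i ∈ Set.Icc (-1/2 : ℝ) (1/2)) (a : ZMod (2 * k + 1) ≃ N)
    (ha : ∀ i j : ZMod (2 * k + 1), i.val ≤ j.val → b (a i) ≤ b (a j)) (hopt : 0 < opt b) :
    ((1/2) * scRD b + (1/2) * scPCD b a) / opt b < 3/2 := by
  have hcont : Continuous (sc b) := by
    unfold sc d
    fun_prop
  obtain ⟨o, ho, hmin⟩ := (isCompact_Icc (a := (-1/2 : ℝ)) (b := 1/2)).exists_isMinOn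
    ⟨0, by norm_num, by norm_num⟩ hcont.continuousOn
  have hle : IsLeast (sc b '' Set.Icc (-1/2) (1/2)) (sc b o) :=
    ⟨⟨o, ho, rfl⟩, by rintro _ ⟨v, hv, rfl⟩; exact hmin hv⟩
  have hopt' : opt b = sc b o := hle.csInf_eq
  let Y : ℕ → ℝ := fun i => b (a (i : ZMod (2 * k + 1))) + ((i / (2 * k + 1) : ℕ) : ℝ)
  have hper : ∀ i, Y (i + (2 * k + 1)) = Y i + 1 := by
    intro i
    simp only [Y]
    rw [Nat.add_div_right _ (by omega), Nat.cast_add i (2 * k + 1), ZMod.natCast_self]
    push_cast; simp [add_assoc]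
  have hm : Monotone Y := by
    intro i j hij
    simp only [Y]
    have h1 : i / (2 * k + 1) ≤ j / (2 * k + 1) := Nat.div_le_div_right hij
    rcases h1.eq_or_lt with h | h
    · rw [h]
      have := ha (i : ZMod (2 * k + 1)) (j : ZMod (2 * k + 1)) (by
        rw [ZMod.val_natCast, ZMod.val_natCast]
        have e1 := Nat.div_add_mod i (2 * k + 1)
        have e2 := Nat.div_add_mod j (2 * k + 1)
        rw [h] at e1; omega)
      linarith
    · have : ((i / (2 * k + 1) + 1 : ℕ) : ℝ) ≤ ((j / (2 * k + 1) : ℕ) : ℝ) := by exact_mod_cast h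
      have a1 := (hb (a (i : ZMod (2 * k + 1)))).2
      have a2 := (hb (a (j : ZMod (2 * k + 1)))).1
      push_cast at this; linarith
  let f : ℝ → ℝ := fun v => ∑ i ∈ range (2 * k + 1), pd (Y i - v)
  have hY : ∀ i < 2 * k + 1, Y i = b (a (i : ZMod (2 * k + 1))) := by
    intro i hi; simp only [Y]; rw [Nat.div_eq_of_lt hi]; simp
  have hf : ∀ v ∈ Set.Icc (-1/2 : ℝ) (1/2), f v = sc b v := by
    intro v hv
    simp only [f, sc]
    rw [← a.sum_comp, sum_zmod]
    refine sum_congr rfl fun i hi => ?_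
    have := hb (a (i : ZMod (2 * k + 1)))
    rw [hY i (mem_range.1 hi), pd_eq _ (abs_le.2 ⟨by linarith [this.1, hv.2],
      by linarith [this.2, hv.1]⟩), d]
  have hfper : ∀ (v : ℝ) (m : ℕ), f (v + m) = f v := by
    intro v m
    exact sum_congr rfl fun i _ => by rw [← pd_add_nat _ m]; congr 1; ring
  have hf2 : f (o + 2) = sc b o := by
    rw [← hf o ho, ← hfper o 2]; norm_num
  have h := core2 k Y hm hper (o + 2) (by
      rw [hY 0 (by omega)]
      linarith [(hb (a ((0 : ℕ) : ZMod (2 * k + 1)))).2, ho.1])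
    ⟨0 + (2 * k + 1) + (2 * k + 1) + (2 * k + 1), by
      rw [hper, hper, hper, hY 0 (by omega)]
      linarith [(hb (a ((0 : ℕ) : ZMod (2 * k + 1)))).1, ho.2]⟩ f (fun v => rfl)
    (by rw [hf2, ← hopt']; exact hopt)
  have hcard : Fintype.card N = 2 * k + 1 := by rw [← Fintype.card_congr a, ZMod.card]
  have hfY : ∀ j ∈ range (2 * k + 1), f (Y j) = sc b (b (a (j : ZMod (2 * k + 1)))) := by
    intro j hj
    rw [hY j (mem_range.1 hj), hf _ (hb _)]
  have hRD : scRD b = (∑ j ∈ range (2 * k + 1), f (Y j)) / (2 * k + 1) := by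
    rw [scRD, ← a.sum_comp, sum_zmod, sum_congr rfl hfY, ← mul_sum, hcard]
    push_cast; ring
  have hgap : ∀ i, Y (i + 1) - Y i < 1 := by
    intro i
    by_contra hc
    have e : ∀ l < 2 * k + 1, Y (i + 1 + l) = Y (i + 1) := by
      intro l hl
      have a1 := hm (show i + 1 ≤ i + 1 + l by omega)
      have a2 := hm (show i + 1 + l ≤ i + (2 * k + 1) by omega)
      rw [hper] at a2
      linarith
    have e0 : f (Y (i + 1)) = 0 := by
      simp only [f]
      rw [← sum_shift (2 * k + 1) (fun l => pd (Y l - Y (i + 1))) (fun l => by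
        rw [hper, ← pd_add_one (Y l - Y (i + 1))]; congr 1; ring) (i + 1)]
      exact sum_eq_zero fun l hl => by rw [e l (mem_range.1 hl)]; simp [pd]
    simp only [Y] at e0
    rw [hfper, hf _ (hb _)] at e0
    have := hmin (hb (a ((i + 1 : ℕ) : ZMod (2 * k + 1))))
    simp only [Set.mem_ofPred_eq] at this
    linarith
  have hopp : ∀ j : ℕ, opp b a (j : ZMod (2 * k + 1)) = Y (j + k + 1) - Y (j + k) := by
    intro j
    have e1 : (j : ZMod (2 * k + 1)) - k = ((j + k + 1 : ℕ) : ZMod (2 * k + 1)) := by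
      have := ZMod.natCast_self (2 * k + 1)
      push_cast at this ⊢
      linear_combination (-1 : ZMod (2 * k + 1)) * this
    have e2 : (j : ZMod (2 * k + 1)) + k = ((j + k : ℕ) : ZMod (2 * k + 1)) := by push_cast; rfl
    rw [opp, arc, e1, e2, ← Int.fract_eq_self.2 ⟨sub_nonneg.2 (hm (Nat.le_succ (j + k))),
      hgap (j + k)⟩]
    simp only [Y]
    rw [← Int.fract_add_natCast _ ((j + k + 1) / (2 * k + 1)),
      ← Int.fract_sub_natCast _ ((j + k) / (2 * k + 1))]
    congr 1; ring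
  have hsum : ∑ l, opp b a l = 1 := by
    rw [sum_zmod]
    simp only [hopp]
    have := sum_range_sub (fun j => Y (j + k)) (2 * k + 1)
    simp only [add_right_comm _ 1 k] at this
    rw [this, show 2 * k + k + 1 = k + (2 * k + 1) by ring, hper]; simp
  have hP : scPCD b a = ∑ j ∈ range (2 * k + 1), (Y (j + k + 1) - Y (j + k)) * f (Y j) := by
    rw [scPCD, hsum, sum_zmod]
    exact sum_congr rfl fun j hj => by rw [hopp, hfY j hj, div_one]
  rw [div_lt_iff₀ hopt, hRD, hP, hopt']
  rw [hf2] at h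
  linarith

end Pool.Agent.Results.MP_9e0a8c_lc.Yes
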